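import Pool.Agent.Q66.DS.Key2
import Pool.Agent.Q66.DS.BAD
import Pool.Agent.Q66.DS.Fin
import Pool.Agent.Q66.DS.OSC
import Pool.Agent.Q211.DS.KRI
import Pool.Agent.Q211.DS.L2
import Pool.Agent.Q211.DS.AVG
import Pool.Agent.Q211.DS.GRAM
import Pool.Agent.Q98.DS.GRID
import Pool.Agent.Q98.DS.TS
import Pool.Agent.Q150.DS.RATIO
import Pool.Agent.Q225.DS.PAIRS
import Pool.Agent.Q225.DS.PICK
import Pool.Agent.Q225.DS.FROB
import Pool.Agent.Q125.DS.Comb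
import Pool.Agent.Q125.DS.CombA
import Pool.Agent.Q125.DS.CombB
import Pool.Agent.Q125.DS.Fej
import Pool.Agent.Q125.DS.Top2
import Pool.Agent.Q224.DS.AFF

/-!
# Interior of dilated sumsets of a fractal set below dimension `2/n` (MP_e5d0a4_an), Q1: yes

For every `n ≥ 3` and every Borel set `A` of real numbers with
`dim_H A > 2/n - 1/(48 n (n + 200))` there are `t_1 = 1, t_2, ..., t_n` such that
`t_1 A + t_2 A + ... + t_n A` contains a nonempty open interval.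

Project DS (`Pool/Agent/Q66/DS/Stm.lean` has the paper proof); lemmas by helpers 66, 98, 125, 150,
211, 224, 225.
-/

set_option autoImplicit false

open MeasureTheory Set

namespace Pool.Agent.Results.MP_e5d0a4_an.BelowTwoOverN

theorem result : ∀ n : ℕ, 3 ≤ n → ∃ ε : ℝ, ε = 1 / (48 * n * (n + 200)) ∧ 0 < ε ∧
    ∀ A : Set ℝ, MeasurableSet A → ENNReal.ofReal (2 / n - ε) < dimH A →
      ∃ t : Fin n → ℝ, (∀ i : Fin n, (i : ℕ) = 0 → t i = 1) ∧ ∃ x y : ℝ, x < y ∧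
        Ioo x y ⊆ {z : ℝ | ∃ a : Fin n → ℝ, (∀ i, a i ∈ A) ∧ z = ∑ i, t i * a i} := by
  intro n hn
  have h0 : (0 : ℝ) < n := by
    have : 0 < n := by omega
    exact_mod_cast this
  have hOSC := Pool.Agent.Q66.DS.t_OSC
  have hL2 := Pool.Agent.Q211.DS.t_L2 hOSC Pool.Agent.Q211.DS.t_KRI
  have hAVG := Pool.Agent.Q211.DS.t_AVG hL2
  have hGRAM := Pool.Agent.Q211.DS.t_GRAM
  have hKEY := Pool.Agent.Q66.DS.t_KEY hGRAM
    (Pool.Agent.Q225.DS.t_PAIRS (Pool.Agent.Q150.DS.t_RATIO hOSC hGRAM)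
      (Pool.Agent.Q98.DS.t_GRID hAVG) hL2)
    (Pool.Agent.Q125.DS.t_COMB Pool.Agent.Q125.DS.t_COMBA Pool.Agent.Q125.DS.t_COMBB)
    (Pool.Agent.Q224.DS.t_AFF hOSC Pool.Agent.Q211.DS.t_KRI)
  exact ⟨_, rfl, by positivity, fun A hA hd =>
    Pool.Agent.Q66.DS.final_form Pool.Agent.Q225.DS.t_FROB Pool.Agent.Q150.DS.t_LAW
      (Pool.Agent.Q98.DS.t_TS hL2 hAVG)
      (Pool.Agent.Q225.DS.t_PICK (Pool.Agent.Q66.DS.t_BAD hKEY))
      (Pool.Agent.Q125.DS.t_TOP Pool.Agent.Q125.DS.t_FEJ) n hn A hA hd⟩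

end Pool.Agent.Results.MP_e5d0a4_an.BelowTwoOverN
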